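import Mathlib
import Pool.Agent.helper71.AA.Defs

/-! # Project AA, module C1: counting -/

namespace Pool.Agent.helper71.AA

open Finset

/-- one residue class -/
theorem C1_class (m v : ℕ) (hm : 0 < m) (X : ℝ) (hX : 0 ≤ X) :
    |((((Icc 1 ⌊X⌋₊).filter (fun a => a ≡ v [MOD m])).card : ℕ) : ℝ) - X / m| ≤ 1 := by
  have e1 : Icc 1 ⌊X⌋₊ = Ioc 0 ⌊X⌋₊ := by
    ext n; simp [Nat.lt_iff_add_one_le]
  rw [e1]
  have hc := Nat.Ioc_filter_modEq_card 0 ⌊X⌋₊ hm v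
  set c : ℕ := ((Ioc 0 ⌊X⌋₊).filter (fun a => a ≡ v [MOD m])).card with hcdef
  have hmQ : (0 : ℚ) < (m : ℚ) := by exact_mod_cast hm
  have hmR : (0 : ℝ) < (m : ℝ) := by exact_mod_cast hm
  have hfl : (⌊X⌋₊ : ℝ) ≤ X := Nat.floor_le hX
  have hfl2 : X < (⌊X⌋₊ : ℝ) + 1 := Nat.lt_floor_add_one X
  set N : ℕ := ⌊X⌋₊ with hN
  set x : ℚ := ((N : ℚ) - v) / (m : ℚ) with hx
  set y : ℚ := (((0 : ℕ) : ℚ) - v) / (m : ℚ) with hy
  have hxy : x - y = (N : ℚ) / m := by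
    rw [hx, hy]; field_simp; push_cast; ring
  have h1 : (⌊x⌋ : ℚ) ≤ x := Int.floor_le x
  have h2 : x < (⌊x⌋ : ℚ) + 1 := Int.lt_floor_add_one x
  have h3 : (⌊y⌋ : ℚ) ≤ y := Int.floor_le y
  have h4 : y < (⌊y⌋ : ℚ) + 1 := Int.lt_floor_add_one y
  have hNm : (0 : ℚ) ≤ (N : ℚ) / m := by positivity
  have hge : (0 : ℤ) ≤ ⌊x⌋ - ⌊y⌋ := by
    have : y ≤ x := by linarith
    have := Int.floor_le_floor this
    omega
  have hc' : (c : ℤ) = ⌊x⌋ - ⌊y⌋ := by
    rw [hc]; exact max_eq_left hge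
  have hcQ : (c : ℚ) = (⌊x⌋ : ℚ) - (⌊y⌋ : ℚ) := by exact_mod_cast hc'
  have hup : (c : ℚ) < (N : ℚ) / m + 1 := by rw [hcQ, ← hxy]; linarith
  have hlo : (N : ℚ) / m - 1 < (c : ℚ) := by rw [hcQ, ← hxy]; linarith
  have hlo2 : (N : ℚ) < (c : ℚ) * m + m := by
    have : (N : ℚ) / m < (c : ℚ) + 1 := by linarith
    rw [div_lt_iff₀ hmQ] at this
    linarith
  have hlo3 : N + 1 ≤ c * m + m := by exact_mod_cast hlo2
  have hlo4 : (N : ℝ) + 1 ≤ (c : ℝ) * m + m := by exact_mod_cast hlo3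
  have hup1 : (c : ℚ) * m < (N : ℚ) + m := by
    have := mul_lt_mul_of_pos_right hup hmQ
    rw [add_mul, div_mul_cancel₀ _ hmQ.ne', one_mul] at this
    exact this
  have hup3 : c * m < N + m := by exact_mod_cast hup1
  have hup4 : (c : ℝ) * m < (N : ℝ) + m := by exact_mod_cast hup3
  rw [abs_le]
  constructor
  · have : X / m ≤ c + 1 := by
      rw [div_le_iff₀ hmR]; nlinarith
    linarith
  · have : (c : ℝ) - 1 ≤ X / m := by
      rw [le_div_iff₀ hmR]; nlinarith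
    linarith

/-- Chinese remainder theorem -/
theorem C1_crt (W a₀ : ℕ) (S : Finset ℕ) (hS : ∀ l ∈ S, l.Prime ∧ l.Coprime W) (r : ℕ → ℕ) :
    ∃ v : ℕ, ∀ a : ℕ, (a ≡ a₀ [MOD W] ∧ ∀ l ∈ S, a ≡ r l [MOD l]) ↔
      a ≡ v [MOD W * ∏ l ∈ S, l] := by
  classical
  induction S using Finset.induction_on with
  | empty => exact ⟨a₀, fun a => by simp⟩
  | insert l S hl ih =>
    obtain ⟨v, hv⟩ := ih (fun k hk => hS k (mem_insert_of_mem hk))
    have hlp := hS l (mem_insert_self l S)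
    have hco : (W * ∏ k ∈ S, k).Coprime l := by
      apply Nat.Coprime.mul_left hlp.2.symm
      apply Nat.Coprime.prod_left
      intro k hk
      have hkp := hS k (mem_insert_of_mem hk)
      rw [Nat.coprime_primes hkp.1 hlp.1]
      rintro rfl
      exact hl hk
    refine ⟨Nat.chineseRemainder hco v (r l), fun a => ?_⟩
    have h1 : (Nat.chineseRemainder hco v (r l) : ℕ) ≡ v [MOD W * ∏ k ∈ S, k] :=
      (Nat.chineseRemainder hco v (r l)).2.1
    have h2 : (Nat.chineseRemainder hco v (r l) : ℕ) ≡ r l [MOD l] :=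
      (Nat.chineseRemainder hco v (r l)).2.2
    rw [prod_insert hl, show W * (l * ∏ k ∈ S, k) = (W * ∏ k ∈ S, k) * l by ring,
      ← Nat.modEq_and_modEq_iff_modEq_mul hco]
    constructor
    · rintro ⟨ha, hb⟩
      refine ⟨((hv a).1 ⟨ha, fun k hk => hb k (mem_insert_of_mem hk)⟩).trans h1.symm,
        (hb l (mem_insert_self l S)).trans h2.symm⟩
    · rintro ⟨ha, hb⟩
      have := (hv a).2 (ha.trans h1)
      refine ⟨this.1, fun k hk => ?_⟩
      rcases mem_insert.1 hk with rfl | hk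
      · exact hb.trans h2
      · exact this.2 k hk

/-- the inverse of `p²` modulo `l` -/
theorem C1_inv (l p : ℕ) (hl : l.Prime) (hp : p.Prime) (hpl : l ≠ p) :
    ∃ r : ℕ, ∀ a : ℕ, 1 ≤ a → (l ∣ a * p ^ 2 - 1 ↔ a ≡ r [MOD l]) := by
  have hco : (p ^ 2).Coprime l := by
    apply Nat.Coprime.pow_left
    rw [Nat.coprime_primes hp hl]
    exact fun h => hpl h.symm
  obtain ⟨r, hr⟩ := Nat.exists_mul_mod_eq_one_of_coprime hco hl.one_lt
  have hr' : p ^ 2 * r ≡ 1 [MOD l] := by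
    rw [Nat.ModEq, hr.2, Nat.mod_eq_of_lt hl.one_lt]
  refine ⟨r, fun a ha => ?_⟩
  have h1 : 1 ≤ a * p ^ 2 := Nat.mul_pos ha (pow_pos hp.pos 2)
  rw [← Nat.modEq_iff_dvd' h1]
  constructor
  · intro h
    have e1 : a * (p ^ 2 * r) ≡ a * 1 [MOD l] := Nat.ModEq.mul_left a hr'
    have e2 : 1 * r ≡ (a * p ^ 2) * r [MOD l] := Nat.ModEq.mul_right r h
    have e3 : a * 1 ≡ 1 * r [MOD l] := by
      refine e1.symm.trans ?_
      rw [← mul_assoc]
      exact e2.symm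
    simpa using e3
  · intro h
    have e1 : a * p ^ 2 ≡ r * p ^ 2 [MOD l] := Nat.ModEq.mul_right _ h
    have e2 : r * p ^ 2 ≡ 1 [MOD l] := by rw [mul_comm]; exact hr'
    exact (e1.trans e2).symm

/-- equal conditions -/
theorem C1_eq (l p q : ℕ) (hp : p.Prime) (hq : q.Prime)
    (h : (l : ℤ) ∣ (p : ℤ) ^ 2 - (q : ℤ) ^ 2) (a : ℕ) (ha : 1 ≤ a) :
    l ∣ a * p ^ 2 - 1 ↔ l ∣ a * q ^ 2 - 1 := by
  have h1 : 1 ≤ a * p ^ 2 := Nat.mul_pos ha (pow_pos hp.pos 2)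
  have h2 : 1 ≤ a * q ^ 2 := Nat.mul_pos ha (pow_pos hq.pos 2)
  rw [← Int.natCast_dvd_natCast, ← Int.natCast_dvd_natCast, Nat.cast_sub h1, Nat.cast_sub h2]
  push_cast
  have e : (a : ℤ) * p ^ 2 - 1 = (a * q ^ 2 - 1) + a * (p ^ 2 - q ^ 2) := by ring
  rw [e]
  exact (dvd_add_left (h.mul_left _))

/-- incompatible conditions -/
theorem C1_ne (l p q : ℕ) (hl : l.Prime) (hp : p.Prime) (hq : q.Prime) (a : ℕ) (ha : 1 ≤ a)
    (h1 : l ∣ a * p ^ 2 - 1) (h2 : l ∣ a * q ^ 2 - 1) :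
    (l : ℤ) ∣ (p : ℤ) ^ 2 - (q : ℤ) ^ 2 := by
  have g1 : 1 ≤ a * p ^ 2 := Nat.mul_pos ha (pow_pos hp.pos 2)
  have g2 : 1 ≤ a * q ^ 2 := Nat.mul_pos ha (pow_pos hq.pos 2)
  rw [← Int.natCast_dvd_natCast, Nat.cast_sub g1] at h1
  rw [← Int.natCast_dvd_natCast, Nat.cast_sub g2] at h2
  push_cast at h1 h2
  have h3 : (l : ℤ) ∣ a * ((p : ℤ) ^ 2 - (q : ℤ) ^ 2) := by
    have := dvd_sub h1 h2
    have e : (a : ℤ) * p ^ 2 - 1 - (a * q ^ 2 - 1) = a * ((p : ℤ) ^ 2 - (q : ℤ) ^ 2) := by ring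
    rwa [e] at this
  have hlp : Prime (l : ℤ) := Nat.prime_iff_prime_int.1 hl
  rcases hlp.dvd_or_dvd h3 with h | h
  · exfalso
    have : (l : ℤ) ∣ 1 := by
      have h4 : (l : ℤ) ∣ a * p ^ 2 := h.mul_right _
      have h5 := dvd_sub h4 h1
      have e : (a : ℤ) * p ^ 2 - (a * p ^ 2 - 1) = 1 := by ring
      rwa [e] at h5
    exact hlp.not_isUnit (isUnit_of_dvd_one this)
  · exact h

theorem count_pair (W a₀ : ℕ) (hW : 0 < W) (Q : Finset ℕ) (hQ : ∀ l ∈ Q, l.Prime ∧ l.Coprime W)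
    (p q : ℕ) (hp : p.Prime) (hq : q.Prime) (D E : Finset ℕ) (hD : D ⊆ Q.erase p)
    (hE : E ⊆ Q.erase q) (X : ℝ) (hX : 0 ≤ X) :
    |((((As W a₀ X).filter (fun a => D ⊆ At Q p a ∧ E ⊆ At Q q a)).card : ℕ) : ℝ) -
      X / W * rho (Nn Q p q) D E| ≤ 1 := by
  classical
  have hDQ : ∀ l ∈ D, l ∈ Q := fun l hl => mem_of_mem_erase (hD hl)
  have hEQ : ∀ l ∈ E, l ∈ Q := fun l hl => mem_of_mem_erase (hE hl)
  have hDp : ∀ l ∈ D, l ≠ p := fun l hl => ne_of_mem_erase (hD hl)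
  have hEq : ∀ l ∈ E, l ≠ q := fun l hl => ne_of_mem_erase (hE hl)
  unfold rho
  split_ifs with hN
  · -- compatible
    have key : ∀ l : ℕ, ∃ r : ℕ, l ∈ D ∪ E → ∀ a : ℕ, 1 ≤ a →
        (((l ∈ D → l ∣ a * p ^ 2 - 1) ∧ (l ∈ E → l ∣ a * q ^ 2 - 1)) ↔ a ≡ r [MOD l]) := by
      intro l
      by_cases h1 : l ∈ D
      · obtain ⟨r, hr⟩ := C1_inv l p (hQ l (hDQ l h1)).1 hp (hDp l h1)
        refine ⟨r, fun _ a ha => ?_⟩
        rw [← hr a ha]
        constructor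
        · intro h; exact h.1 h1
        · intro h
          refine ⟨fun _ => h, fun h2 => ?_⟩
          have h3 := hN (mem_inter.2 ⟨h1, h2⟩)
          unfold Nn at h3
          exact (C1_eq l p q hp hq (mem_filter.1 h3).2 a ha).1 h
      · by_cases h2 : l ∈ E
        · obtain ⟨r, hr⟩ := C1_inv l q (hQ l (hEQ l h2)).1 hq (hEq l h2)
          refine ⟨r, fun _ a ha => ?_⟩
          rw [← hr a ha]
          exact ⟨fun h => h.2 h2, fun h => ⟨fun h' => absurd h' h1, fun _ => h⟩⟩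
        · refine ⟨0, fun h => ?_⟩
          rcases mem_union.1 h with h | h
          · exact absurd h h1
          · exact absurd h h2
    choose r hr using key
    have hS : ∀ l ∈ D ∪ E, l.Prime ∧ l.Coprime W := by
      intro l hl
      rcases mem_union.1 hl with h | h
      · exact hQ l (hDQ l h)
      · exact hQ l (hEQ l h)
    obtain ⟨v, hv⟩ := C1_crt W a₀ (D ∪ E) hS r
    have e1 : (As W a₀ X).filter (fun a => D ⊆ At Q p a ∧ E ⊆ At Q q a) =
        (Icc 1 ⌊X⌋₊).filter (fun a => a ≡ v [MOD W * ∏ l ∈ D ∪ E, l]) := by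
      unfold As
      rw [filter_filter]
      apply filter_congr
      intro a ha
      have ha1 : 1 ≤ a := (mem_Icc.1 ha).1
      rw [← hv a]
      apply and_congr_right
      intro _
      constructor
      · rintro ⟨h1, h2⟩ l hl
        rw [← hr l hl a ha1]
        refine ⟨fun h => ?_, fun h => ?_⟩
        · have := h1 h
          unfold At at this
          exact (mem_filter.1 this).2
        · have := h2 h
          unfold At at this
          exact (mem_filter.1 this).2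
      · intro h
        refine ⟨fun l hl => ?_, fun l hl => ?_⟩
        · unfold At
          exact mem_filter.2 ⟨hDQ l hl,
            ((hr l (mem_union_left _ hl) a ha1).2 (h l (mem_union_left _ hl))).1 hl⟩
        · unfold At
          exact mem_filter.2 ⟨hEQ l hl,
            ((hr l (mem_union_right _ hl) a ha1).2 (h l (mem_union_right _ hl))).2 hl⟩
    rw [e1]
    have hm : 0 < W * ∏ l ∈ D ∪ E, l :=
      Nat.mul_pos hW (prod_pos (fun l hl => (hS l hl).1.pos))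
    have := C1_class _ v hm X hX
    have e2 : X / ((W * ∏ l ∈ D ∪ E, l : ℕ) : ℝ) = X / W * (1 / pr (D ∪ E)) := by
      unfold pr
      push_cast
      rw [div_mul_div_comm, mul_one]
    rw [e2] at this
    exact this
  · -- incompatible
    have e1 : (As W a₀ X).filter (fun a => D ⊆ At Q p a ∧ E ⊆ At Q q a) = ∅ := by
      rw [filter_eq_empty_iff]
      intro a ha
      rintro ⟨h1, h2⟩
      apply hN
      intro l hl
      have hlD := (mem_inter.1 hl).1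
      have hlE := (mem_inter.1 hl).2
      have ha1 : 1 ≤ a := by
        unfold As at ha
        exact (mem_Icc.1 (mem_filter.1 ha).1).1
      have g1 := h1 hlD
      have g2 := h2 hlE
      unfold At at g1 g2
      unfold Nn
      exact mem_filter.2 ⟨hDQ l hlD, C1_ne l p q (hQ l (hDQ l hlD)).1 hp hq a ha1
        (mem_filter.1 g1).2 (mem_filter.1 g2).2⟩
    rw [e1]
    simp

/-- `p` does not divide `a p² - 1` -/
theorem C1_At (Q : Finset ℕ) (p a : ℕ) (hp : p.Prime) (ha : 1 ≤ a) : At Q p a ⊆ Q.erase p := by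
  intro l hl
  unfold At at hl
  rw [mem_filter] at hl
  refine mem_erase.2 ⟨?_, hl.1⟩
  rintro rfl
  have g1 : 1 ≤ a * l ^ 2 := Nat.mul_pos ha (pow_pos hp.pos 2)
  have h1 : l ∣ a * l ^ 2 := Dvd.dvd.mul_left (dvd_pow_self l two_ne_zero) a
  have h2 : l ∣ a * l ^ 2 - (a * l ^ 2 - 1) := Nat.dvd_sub h1 hl.2
  have e : a * l ^ 2 - (a * l ^ 2 - 1) = 1 := by omega
  rw [e] at h2
  exact hp.one_lt.ne' (Nat.dvd_one.1 h2)

/-- the representation as a sum over all sets -/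
theorem C1_rep (Q : Finset ℕ) (F ξ : Finset ℕ → ℝ) (h : Rep Q F ξ) (A : Finset ℕ) (hA : A ⊆ Q) :
    F A = ∑ D ∈ Q.powerset, if D ⊆ A then ξ D else 0 := by
  classical
  rw [h A hA, ← sum_filter]
  apply sum_congr _ (fun _ _ => rfl)
  ext D
  rw [mem_powerset, mem_filter, mem_powerset]
  exact ⟨fun h => ⟨h.trans hA, h⟩, fun h => h.2⟩

theorem pair_sum (W a₀ : ℕ) (hW : 0 < W) (Q : Finset ℕ) (hQ : ∀ l ∈ Q, l.Prime ∧ l.Coprime W)
    (p q : ℕ) (hp : p.Prime) (hq : q.Prime) (F F' ξ ζ : Finset ℕ → ℝ)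
    (h : Rep (Q.erase p) F ξ) (h' : Rep (Q.erase q) F' ζ) (X : ℝ) (hX : 0 ≤ X) :
    |∑ a ∈ As W a₀ X, F (At Q p a) * F' (At Q q a) -
      X / W * ∑ D ∈ (Q.erase p).powerset, ∑ E ∈ (Q.erase q).powerset,
        ξ D * ζ E * rho (Nn Q p q) D E| ≤
      (∑ D ∈ (Q.erase p).powerset, |ξ D|) * ∑ E ∈ (Q.erase q).powerset, |ζ E| := by
  classical
  have e1 : ∑ a ∈ As W a₀ X, F (At Q p a) * F' (At Q q a) =
      ∑ D ∈ (Q.erase p).powerset, ∑ E ∈ (Q.erase q).powerset, ξ D * ζ E *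
        ((((As W a₀ X).filter (fun a => D ⊆ At Q p a ∧ E ⊆ At Q q a)).card : ℕ) : ℝ) := by
    have : ∀ a ∈ As W a₀ X, F (At Q p a) * F' (At Q q a) =
        ∑ D ∈ (Q.erase p).powerset, ∑ E ∈ (Q.erase q).powerset,
          (if D ⊆ At Q p a ∧ E ⊆ At Q q a then ξ D * ζ E else 0) := by
      intro a ha
      have ha1 : 1 ≤ a := by
        unfold As at ha
        exact (mem_Icc.1 (mem_filter.1 ha).1).1
      rw [C1_rep _ F ξ h _ (C1_At Q p a hp ha1), C1_rep _ F' ζ h' _ (C1_At Q q a hq ha1),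
        sum_mul_sum]
      apply sum_congr rfl
      intro D _
      apply sum_congr rfl
      intro E _
      by_cases g1 : D ⊆ At Q p a <;> by_cases g2 : E ⊆ At Q q a <;> simp [g1, g2]
    rw [sum_congr rfl this, sum_comm]
    apply sum_congr rfl
    intro D _
    rw [sum_comm]
    apply sum_congr rfl
    intro E _
    rw [← sum_filter, sum_const, nsmul_eq_mul]
    ring
  rw [e1, mul_sum, ← sum_sub_distrib]
  calc |∑ D ∈ (Q.erase p).powerset, (∑ E ∈ (Q.erase q).powerset, ξ D * ζ E *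
        ((((As W a₀ X).filter (fun a => D ⊆ At Q p a ∧ E ⊆ At Q q a)).card : ℕ) : ℝ) -
        X / W * ∑ E ∈ (Q.erase q).powerset, ξ D * ζ E * rho (Nn Q p q) D E)|
      ≤ ∑ D ∈ (Q.erase p).powerset, ∑ E ∈ (Q.erase q).powerset, |ξ D| * |ζ E| := by
        refine (abs_sum_le_sum_abs _ _).trans (sum_le_sum (fun D hD => ?_))
        rw [mul_sum, ← sum_sub_distrib]
        refine (abs_sum_le_sum_abs _ _).trans (sum_le_sum (fun E hE => ?_))
        have := count_pair W a₀ hW Q hQ p q hp hq D E (mem_powerset.1 hD) (mem_powerset.1 hE) X hX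
        have e2 : ξ D * ζ E *
            ((((As W a₀ X).filter (fun a => D ⊆ At Q p a ∧ E ⊆ At Q q a)).card : ℕ) : ℝ) -
            X / W * (ξ D * ζ E * rho (Nn Q p q) D E) = ξ D * ζ E *
            (((((As W a₀ X).filter (fun a => D ⊆ At Q p a ∧ E ⊆ At Q q a)).card : ℕ) : ℝ) -
            X / W * rho (Nn Q p q) D E) := by ring
        rw [e2, abs_mul, abs_mul]
        calc |ξ D| * |ζ E| * _ ≤ |ξ D| * |ζ E| * 1 := by gcongr
          _ = _ := mul_one _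
    _ = _ := by rw [sum_mul_sum]

theorem mean_sum_of
    (hRE : ∀ (Q : Finset ℕ) (_ : ∀ l ∈ Q, 2 ≤ l) (F ξ : Finset ℕ → ℝ) (_ : Rep Q F ξ)
      (L : Finset ℕ) (_ : L ⊆ Q),
      Ex Q (fun A => if L ⊆ A then F A else 0) = ∑ D ∈ Q.powerset, ξ D / pr (D ∪ L))
    (W a₀ : ℕ) (hW : 0 < W) (Q : Finset ℕ) (hQ : ∀ l ∈ Q, l.Prime ∧ l.Coprime W)
    (p : ℕ) (hp : p.Prime) (F ξ : Finset ℕ → ℝ) (h : Rep (Q.erase p) F ξ) (X : ℝ) (hX : 0 ≤ X) :
    |∑ a ∈ As W a₀ X, F (At Q p a) - X / W * Ex (Q.erase p) F| ≤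
      ∑ D ∈ (Q.erase p).powerset, |ξ D| := by
  classical
  have hQ2 : ∀ l ∈ Q.erase p, 2 ≤ l := fun l hl => (hQ l (mem_of_mem_erase hl)).1.two_le
  have e0 : Ex (Q.erase p) F = ∑ D ∈ (Q.erase p).powerset, ξ D * (1 / pr D) := by
    have := hRE (Q.erase p) hQ2 F ξ h ∅ (empty_subset _)
    simp only [empty_subset, if_true, union_empty] at this
    rw [show Ex (Q.erase p) F = Ex (Q.erase p) (fun A => F A) from rfl, this]
    apply sum_congr rfl
    intro D _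
    rw [mul_one_div]
  have e1 : ∑ a ∈ As W a₀ X, F (At Q p a) =
      ∑ D ∈ (Q.erase p).powerset, ξ D *
        ((((As W a₀ X).filter (fun a => D ⊆ At Q p a ∧ ∅ ⊆ At Q p a)).card : ℕ) : ℝ) := by
    have : ∀ a ∈ As W a₀ X, F (At Q p a) =
        ∑ D ∈ (Q.erase p).powerset, (if D ⊆ At Q p a ∧ ∅ ⊆ At Q p a then ξ D else 0) := by
      intro a ha
      have ha1 : 1 ≤ a := by
        unfold As at ha
        exact (mem_Icc.1 (mem_filter.1 ha).1).1
      rw [C1_rep _ F ξ h _ (C1_At Q p a hp ha1)]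
      apply sum_congr rfl
      intro D _
      by_cases g1 : D ⊆ At Q p a <;> simp [g1]
    rw [sum_congr rfl this, sum_comm]
    apply sum_congr rfl
    intro D _
    rw [← sum_filter, sum_const, nsmul_eq_mul]
    ring
  rw [e0, e1, mul_sum, ← sum_sub_distrib]
  refine (abs_sum_le_sum_abs _ _).trans (sum_le_sum (fun D hD => ?_))
  have hc := count_pair W a₀ hW Q hQ p p hp hp D ∅ (mem_powerset.1 hD) (empty_subset _) X hX
  have er : rho (Nn Q p p) D ∅ = 1 / pr D := by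
    unfold rho
    rw [if_pos (by simp), union_empty]
  rw [er] at hc
  have e2 : ξ D *
      ((((As W a₀ X).filter (fun a => D ⊆ At Q p a ∧ ∅ ⊆ At Q p a)).card : ℕ) : ℝ) -
      X / W * (ξ D * (1 / pr D)) = ξ D *
      (((((As W a₀ X).filter (fun a => D ⊆ At Q p a ∧ ∅ ⊆ At Q p a)).card : ℕ) : ℝ) -
      X / W * (1 / pr D)) := by ring
  rw [e2, abs_mul]
  calc |ξ D| * _ ≤ |ξ D| * 1 := by gcongr
    _ = _ := mul_one _

end Pool.Agent.helper71.AA
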